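import Pool.Agent.V1140.AP.Move

/-!
# Injectivity of the tropical Abel-Prym map over 2-connected graphs

`G` is a metric graph given by a model: finitely many vertices and edges (loops and multiple edges
allowed), every edge `e` having a positive length `G.len e`; `G.Pt` is the set of its points with
the topology glued from the edges.  Every free double cover of `G` is, after labelling the two
points over each vertex and lifting each edge from its source, of the form `G.cover σ` for a
voltage `σ : G.E → Bool`; `iota` is its involution and `proj` its projection to `G`.

`SamePrym p q` says that `p - ι p` and `q - ι q` are linearly equivalent: there is a function on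
the points of `G.cover σ` that is linear with integer slope near every point in every outgoing
direction, whose divisor (sum of the outgoing slopes) is `(p - ι p) - (q - ι q)`.

If `G.cover σ` is connected, `G` minus any point is connected and all fibres of the Abel-Prym map
`p ↦ [p - ι p]` are finite, then the Abel-Prym map is injective.  No assumption on
(non-)hyperellipticity is needed.
-/

set_option autoImplicit false

namespace Pool.Agent.Results.MP_10cdc7_ag.AbelPrymInjective

open Pool.Agent.V1140.AP Pool.Agent.V1140.AP.MetricGraph

theorem result (G : MetricGraph) (σ : G.E → Bool) [PreconnectedSpace (G.cover σ).Pt]
    (h2 : ∀ x : G.Pt, IsPreconnected ({x}ᶜ : Set G.Pt))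
    (hfin : ∀ p : (G.cover σ).Pt, {q : (G.cover σ).Pt | SamePrym p q}.Finite) :
    ∀ p q : (G.cover σ).Pt, SamePrym p q → p = q :=
  fun p q h => main h2 hfin p q h

end Pool.Agent.Results.MP_10cdc7_ag.AbelPrymInjective
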